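import Pool.Agent.Lib_helper69.KP.Defs2

/-!
# MP_3b4c52_gt : block G (the fourth order algebra), helper51
-/

open scoped Manifold ContDiff InnerProductSpace Quaternion Topology Matrix
open Metric Set

noncomputable section

namespace Pool.Agent.KP

variable {d : ℕ}

namespace BG

/-! ## Normed products -/

theorem inner_mul_mul_right (p : NProd d) (v u u' : E d) :
    ⟪p.mul v u, p.mul v u'⟫_ℝ = ‖v‖ ^ 2 * ⟪u, u'⟫_ℝ := by
  have h1 := p.norm_mul v (u + u')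
  have h2 := p.norm_mul v u
  have h3 := p.norm_mul v u'
  have e1 : ‖p.mul v u + p.mul v u'‖ ^ 2 = ‖v‖ ^ 2 * ‖u + u'‖ ^ 2 := by
    rw [← map_add, h1]; ring
  rw [norm_add_sq_real, norm_add_sq_real, h2, h3] at e1
  linarith

theorem inner_mul_mul_left (p : NProd d) (v v' u : E d) :
    ⟪p.mul v u, p.mul v' u⟫_ℝ = ‖u‖ ^ 2 * ⟪v, v'⟫_ℝ := by
  have h1 := p.norm_mul (v + v') u
  have h2 := p.norm_mul v u
  have h3 := p.norm_mul v' u
  have e1 : ‖p.mul v u + p.mul v' u‖ ^ 2 = ‖u‖ ^ 2 * ‖v + v'‖ ^ 2 := by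
    rw [← ContinuousLinearMap.add_apply, ← map_add, h1]; ring
  rw [norm_add_sq_real, norm_add_sq_real, h2, h3] at e1
  linarith

theorem mul_inj (p : NProd d) {v u : E d} (hu : u ≠ 0) (h : p.mul v u = 0) : v = 0 := by
  have h1 := p.norm_mul v u
  rw [h, norm_zero] at h1
  have h2 : ‖u‖ ≠ 0 := norm_ne_zero_iff.2 hu
  exact norm_eq_zero.1 ((mul_eq_zero.1 h1.symm).resolve_right h2)

theorem adj_mul (p : NProd d) (v u : E d) : p.adj (p.mul v u) u = ‖u‖ ^ 2 • v := by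
  refine ext_inner_right ℝ fun w => ?_
  rw [p.inner_adj, inner_mul_mul_left, inner_smul_left]
  simp

theorem mul_zero' (p : NProd d) (v : E d) : p.mul v 0 = 0 := map_zero _

theorem mul_adj (p : NProd d) (s u : E d) : p.mul (p.adj s u) u = ‖u‖ ^ 2 • s := by
  by_cases hu : u = 0
  · subst hu; simp
  have hinj : Function.Injective (p.mul.flip u : E d →ₗ[ℝ] E d) := by
    rw [injective_iff_map_eq_zero]
    intro v hv
    exact mul_inj p hu hv
  obtain ⟨v, hv⟩ := LinearMap.surjective_of_injective hinj s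
  have hv' : p.mul v u = s := hv
  rw [← hv', adj_mul, map_smul, ContinuousLinearMap.smul_apply]

theorem adj_add_right (p : NProd d) (s u u' : E d) : p.adj s (u + u') = p.adj s u + p.adj s u' := by
  refine ext_inner_right ℝ fun w => ?_
  rw [inner_add_left, p.inner_adj, p.inner_adj, p.inner_adj, map_add, inner_add_right]

theorem adj_smul_right (p : NProd d) (r : ℝ) (s u : E d) : p.adj s (r • u) = r • p.adj s u := by
  refine ext_inner_right ℝ fun w => ?_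
  rw [inner_smul_left, p.inner_adj, p.inner_adj, map_smul, inner_smul_right]
  simp

theorem adj_add_left (p : NProd d) (s s' u : E d) : p.adj (s + s') u = p.adj s u + p.adj s' u := by
  refine ext_inner_right ℝ fun w => ?_
  rw [inner_add_left, p.inner_adj, p.inner_adj, p.inner_adj, inner_add_left]

theorem adj_smul_left (p : NProd d) (r : ℝ) (s u : E d) : p.adj (r • s) u = r • p.adj s u := by
  refine ext_inner_right ℝ fun w => ?_
  rw [inner_smul_left, p.inner_adj, p.inner_adj, inner_smul_left]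

theorem adj_neg_left (p : NProd d) (s u : E d) : p.adj (-s) u = - p.adj s u := by
  have := adj_smul_left p (-1) s u
  simpa using this

theorem mul_adj_polar (p : NProd d) (s u u' : E d) :
    p.mul (p.adj s u) u' + p.mul (p.adj s u') u = (2 * ⟪u, u'⟫_ℝ) • s := by
  have h := mul_adj p s (u + u')
  rw [adj_add_right, map_add, map_add, ContinuousLinearMap.add_apply,
    ContinuousLinearMap.add_apply, mul_adj, mul_adj, norm_add_sq_real] at h
  have h2 : p.mul (p.adj s u) u' + p.mul (p.adj s u') u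
      = (‖u‖ ^ 2 • s + p.mul (p.adj s u') u + (p.mul (p.adj s u) u' + ‖u'‖ ^ 2 • s))
        - ‖u‖ ^ 2 • s - ‖u'‖ ^ 2 • s := by abel
  rw [h2, h]
  module

theorem inner_adj_adj (p : NProd d) (s u u' : E d) :
    ⟪p.adj s u, p.adj s u'⟫_ℝ = ‖s‖ ^ 2 * ⟪u, u'⟫_ℝ := by
  have h1 : ⟪p.adj s u, p.adj s u'⟫_ℝ = ⟪s, p.mul (p.adj s u') u⟫_ℝ := p.inner_adj _ _ _
  have h2 : ⟪p.adj s u', p.adj s u⟫_ℝ = ⟪s, p.mul (p.adj s u) u'⟫_ℝ := p.inner_adj _ _ _
  rw [real_inner_comm] at h2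
  have h3 : ⟪s, p.mul (p.adj s u) u' + p.mul (p.adj s u') u⟫_ℝ
      = ⟪s, (2 * ⟪u, u'⟫_ℝ) • s⟫_ℝ := by rw [mul_adj_polar]
  rw [inner_add_right, inner_smul_right, real_inner_self_eq_norm_sq] at h3
  linarith

/-! ## The automorphisms -/

/-- `B_s (u,y) = (u, s u^* + y)` -/
def Bs (p : NProd d) (s : E d) : T d ≃ₗ[ℝ] T d where
  toFun ξ := (ξ.1, p.adj s ξ.1 + ξ.2)
  invFun ξ := (ξ.1, p.adj (-s) ξ.1 + ξ.2)
  map_add' ξ η := by
    ext1
    · rfl
    · simp only [Prod.fst_add, Prod.snd_add, adj_add_right]; abel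
  map_smul' r ξ := by
    ext1
    · rfl
    · simp only [Prod.smul_fst, Prod.smul_snd, adj_smul_right, RingHom.id_apply, smul_add]
  left_inv ξ := by
    ext1
    · rfl
    · simp only [adj_neg_left]; abel
  right_inv ξ := by
    ext1
    · rfl
    · simp only [adj_neg_left]; abel

theorem Bs_apply (p : NProd d) (s : E d) (ξ : T d) : Bs p s ξ = (ξ.1, p.adj s ξ.1 + ξ.2) := rfl
theorem Bs_symm_apply (p : NProd d) (s : E d) (ξ : T d) :
    (Bs p s).symm ξ = (ξ.1, p.adj (-s) ξ.1 + ξ.2) := rfl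

/-- `A_s (a,b,q) = (a, a|s|² + b + 2⟪s,q⟫, a s + q)` -/
def As (s : E d) (X : N d) : N d :=
  (X.1, X.1 * ‖s‖ ^ 2 + X.2.1 + 2 * ⟪s, X.2.2⟫_ℝ, X.1 • s + X.2.2)

theorem As_add (s : E d) (X Y : N d) : As s (X + Y) = As s X + As s Y := by
  simp only [As, Prod.fst_add, Prod.snd_add, inner_add_right, Prod.mk_add_mk]
  refine Prod.ext rfl (Prod.ext ?_ ?_)
  · simp only; ring
  · simp only [add_smul]; abel

theorem As_smul (s : E d) (r : ℝ) (X : N d) : As s (r • X) = r • As s X := by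
  simp only [As, Prod.smul_fst, Prod.smul_snd, inner_smul_right, Prod.smul_mk, smul_eq_mul]
  refine Prod.ext rfl (Prod.ext ?_ ?_)
  · simp only; ring
  · simp only [smul_add, smul_smul]

theorem As_neg_As (s : E d) (X : N d) : As (-s) (As s X) = X := by
  simp only [As, norm_neg, inner_neg_left, inner_add_right, inner_smul_right,
    real_inner_self_eq_norm_sq]
  refine Prod.ext rfl (Prod.ext ?_ ?_)
  · simp only; ring
  · simp only [smul_neg]; abel

theorem As_inj (s : E d) {X Y : N d} (h : As s X = As s Y) : X = Y := by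
  rw [← As_neg_As s X, h, As_neg_As]

theorem Q0_Bs (p : NProd d) (s : E d) (ξ η : T d) :
    Q0 p (Bs p s ξ) (Bs p s η) = As s (Q0 p ξ η) := by
  simp only [Q0_apply, Bs_apply, As]
  refine Prod.ext rfl (Prod.ext ?_ ?_)
  · simp only [inner_add_left, inner_add_right, inner_smul_right]
    rw [inner_adj_adj, p.inner_adj, real_inner_comm (p.adj s η.1) ξ.2, p.inner_adj]
    ring
  · simp only [map_add, ContinuousLinearMap.add_apply]
    have h := mul_adj_polar p s ξ.1 η.1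
    have h2 : (p.mul (p.adj s ξ.1)) η.1 + (p.mul ξ.2) η.1
        + ((p.mul (p.adj s η.1)) ξ.1 + (p.mul η.2) ξ.1)
        = ((p.mul (p.adj s ξ.1)) η.1 + (p.mul (p.adj s η.1)) ξ.1)
          + ((p.mul ξ.2) η.1 + (p.mul η.2) ξ.1) := by abel
    rw [h2, h, smul_add, smul_smul]
    congr 2
    ring

theorem Q0_Bs_symm (p : NProd d) (s : E d) (ξ w : T d) :
    As s (Q0 p ξ ((Bs p s).symm w)) = Q0 p (Bs p s ξ) w := by
  rw [← Q0_Bs, LinearEquiv.apply_symm_apply]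

/-- the transformed fourth order data -/
def es (p : NProd d) (s : E d) (e : T d →L[ℝ] N d →L[ℝ] T d) : T d →L[ℝ] N d →L[ℝ] T d :=
  LinearMap.toContinuousBilinearMap
    (LinearMap.mk₂ ℝ (fun (η : T d) (X : N d) => (Bs p s).symm (e (Bs p s η) (As s X)))
      (by intro a b c; simp only [map_add, ContinuousLinearMap.add_apply])
      (by intro r a b; simp only [map_smul, ContinuousLinearMap.smul_apply])
      (by intro a b c; simp only [As_add, map_add])
      (by intro r a b; simp only [As_smul, map_smul]))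

theorem es_apply (p : NProd d) (s : E d) (e : T d →L[ℝ] N d →L[ℝ] T d) (η : T d) (X : N d) :
    es p s e η X = (Bs p s).symm (e (Bs p s η) (As s X)) := rfl

theorem sym4_es (p : NProd d) (s : E d) (e : T d →L[ℝ] N d →L[ℝ] T d) (he : Sym4 (Q0 p) e) :
    Sym4 (Q0 p) (es p s e) := by
  intro θ ξ η ζ
  apply As_inj s
  simp only [As_add, es_apply, ← Q0_Bs, LinearEquiv.apply_symm_apply]
  exact he _ _ _ _

/-! ## Step 1 -/

theorem scalar_of_orth (g : E d →ₗ[ℝ] E d) (h : ∀ u u' : E d, ⟪u, u'⟫_ℝ = 0 → ⟪u', g u⟫_ℝ = 0) :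
    ∃ μ : ℝ, ∀ u, g u = μ • u := by
  -- every vector is an eigenvector
  have h1 : ∀ u : E d, ‖u‖ = 1 → g u = ⟪u, g u⟫_ℝ • u := by
    intro u hu
    have h2 : ⟪u, g u - ⟪u, g u⟫_ℝ • u⟫_ℝ = 0 := by
      rw [inner_sub_right, inner_smul_right, real_inner_self_eq_norm_sq, hu]; ring
    have h3 := h u _ h2
    have h2' : ⟪g u - ⟪u, g u⟫_ℝ • u, u⟫_ℝ = 0 := by rw [real_inner_comm]; exact h2
    have h4 : ⟪g u - ⟪u, g u⟫_ℝ • u, g u - ⟪u, g u⟫_ℝ • u⟫_ℝ = 0 := by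
      rw [inner_sub_right (g u - ⟪u, g u⟫_ℝ • u), h3, inner_smul_right, h2']
      ring
    exact sub_eq_zero.1 (inner_self_eq_zero.1 h4)
  set b := EuclideanSpace.basisFun (Fin d) ℝ with hb
  have hbn : ∀ i, ‖b i‖ = 1 := fun i => b.orthonormal.1 i
  have hbo : ∀ i j, i ≠ j → ⟪b i, b j⟫_ℝ = 0 := fun i j hij => b.orthonormal.2 hij
  have h5 : ∀ i j, ⟪b i, g (b i)⟫_ℝ = ⟪b j, g (b j)⟫_ℝ := by
    intro i j
    by_cases hij : i = j
    · rw [hij]
    have h6 : ⟪b i + b j, b i - b j⟫_ℝ = 0 := by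
      rw [inner_add_left, inner_sub_right, inner_sub_right, hbo i j hij, hbo j i (Ne.symm hij),
        real_inner_self_eq_norm_sq, real_inner_self_eq_norm_sq, hbn, hbn]; ring
    have h7 := h _ _ h6
    rw [map_add, inner_sub_left, inner_add_right, inner_add_right,
      h _ _ (hbo j i (Ne.symm hij)), h _ _ (hbo i j hij)] at h7
    linarith
  by_cases hd : 0 < d
  · refine ⟨⟪b ⟨0, hd⟩, g (b ⟨0, hd⟩)⟫_ℝ, ?_⟩
    have h8 : g = ⟪b ⟨0, hd⟩, g (b ⟨0, hd⟩)⟫_ℝ • LinearMap.id := by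
      refine b.toBasis.ext fun i => ?_
      rw [OrthonormalBasis.coe_toBasis, LinearMap.smul_apply, LinearMap.id_apply, h5 ⟨0, hd⟩ i]
      exact h1 _ (hbn i)
    intro u
    conv_lhs => rw [h8]
    rfl
  · have hd0 : d = 0 := by omega
    subst hd0
    exact ⟨0, fun u => Subsingleton.elim _ _⟩

/-- the null vector `X₁` -/
def X1 : N d := (1, 0, 0)

theorem Q0_u (p : NProd d) (u u' : E d) :
    Q0 p (u, 0) (u', 0) = ⟪u, u'⟫_ℝ • (X1 : N d) := by
  simp [Q0_apply, X1]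

/-- the vector `(0,0,q)` -/
def PP (q : E d) : N d := (0, 0, q)

theorem Q0_uy (p : NProd d) (u y : E d) :
    Q0 p (u, 0) (0, y) = (1/2 : ℝ) • PP (p.mul y u) := by
  simp [Q0_apply, PP]

theorem Q0_yu (p : NProd d) (u y : E d) :
    Q0 p (0, y) (u, 0) = (1/2 : ℝ) • PP (p.mul y u) := by
  simp [Q0_apply, PP]

theorem Q0_a (p : NProd d) (ξ η : T d) : (Q0 p ξ η).1 = ⟪ξ.1, η.1⟫_ℝ := rfl
theorem Q0_b (p : NProd d) (ξ η : T d) : (Q0 p ξ η).2.1 = ⟪ξ.2, η.2⟫_ℝ := rfl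
theorem Q0_c (p : NProd d) (ξ η : T d) :
    (Q0 p ξ η).2.2 = (1/2 : ℝ) • (p.mul ξ.2 η.1 + p.mul η.2 ξ.1) := rfl

theorem PP_smul (r : ℝ) (q : E d) : (PP (r • q) : N d) = r • PP q := by
  simp [PP]

theorem step1 (hd : 1 ≤ d) (p : NProd d) (e : T d →L[ℝ] N d →L[ℝ] T d) (he : Sym4 (Q0 p) e) :
    ∃ γ : ℝ, (∀ u : E d, e (u, 0) X1 = (2 * γ) • ((u, 0) : T d)) ∧
      ∀ y : E d, (e (0, y) X1).2 = γ • y := by
  -- (a)
  have ha : ∀ u : E d, (e (u, 0) X1).2 = 0 := by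
    intro u
    by_cases hu : u = 0
    · subst hu
      have : ((0 : E d), (0 : E d)) = (0 : T d) := rfl
      rw [this, map_zero]; rfl
    have hu2 : ‖u‖ ^ 2 ≠ 0 := by positivity
    refine ext_inner_left ℝ fun y => ?_
    have h := he (0, y) (u, 0) (u, 0) (u, 0)
    have hb := congrArg (fun X : N d => X.2.1) h
    simp only [Prod.snd_add, Prod.fst_add, Q0_b, inner_zero_left, add_zero] at hb
    rw [Q0_u, map_smul, Prod.smul_snd, inner_smul_right, real_inner_self_eq_norm_sq] at hb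
    rw [inner_zero_right]
    exact ((mul_eq_zero.1 hb.symm).resolve_left hu2)
  -- (b)
  obtain ⟨μ, hμ⟩ : ∃ μ : ℝ, ∀ u : E d, (e (u, 0) X1).1 = μ • u := by
    let g : E d →ₗ[ℝ] E d := (LinearMap.fst ℝ (E d) (E d)).comp
      (((e.flip X1 : T d →L[ℝ] T d) : T d →ₗ[ℝ] T d).comp (LinearMap.inl ℝ (E d) (E d)))
    have hg : ∀ u, g u = (e (u, 0) X1).1 := fun u => rfl
    have key : ∀ u u' : E d, u ≠ 0 → ⟪u, u'⟫_ℝ = 0 → 3 * ⟪u, g u'⟫_ℝ = ⟪u', g u⟫_ℝ := by
      intro u u' hu huu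
      have hu2 : ‖u‖ ^ 2 ≠ 0 := by positivity
      have h := he (u', 0) (u, 0) (u, 0) (u, 0)
      have hb := congrArg (fun X : N d => X.1) h
      have huu' : ⟪u', u⟫_ℝ = 0 := by rw [real_inner_comm]; exact huu
      simp only [Prod.fst_add, Q0_a] at hb
      simp only [Q0_u, map_smul, huu, huu', zero_smul, map_zero, Prod.smul_fst, Prod.fst_zero,
        inner_zero_right, add_zero, inner_smul_right, real_inner_self_eq_norm_sq] at hb
      rw [hg, hg]
      have : ‖u‖ ^ 2 * (3 * ⟪u, (e (u', 0) X1).1⟫_ℝ) = ‖u‖ ^ 2 * ⟪u', (e (u, 0) X1).1⟫_ℝ := by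
        linarith
      exact mul_left_cancel₀ hu2 this
    obtain ⟨μ, hμ⟩ := scalar_of_orth g (by
      intro u u' huu
      by_cases hu : u = 0
      · subst hu; rw [map_zero, inner_zero_right]
      by_cases hu' : u' = 0
      · subst hu'; rw [inner_zero_left]
      have h1 := key u u' hu huu
      have h2 := key u' u hu' (by rw [real_inner_comm]; exact huu)
      linarith)
    exact ⟨μ, fun u => by rw [← hg]; exact hμ u⟩
  -- (c)
  have hc : ∀ u y : E d, (e (u, 0) (PP (p.mul y u))).2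
      = ‖u‖ ^ 2 • ((3 : ℝ) • (e (0, y) X1).2 - μ • y) := by
    intro u y
    by_cases hu : u = 0
    · subst hu
      have : ((0 : E d), (0 : E d)) = (0 : T d) := rfl
      rw [this, map_zero]; simp
    have h := he (0, y) (u, 0) (u, 0) (u, 0)
    have hb := congrArg (fun X : N d => X.2.2) h
    simp only [Prod.snd_add, Q0_c] at hb
    simp only [Q0_u, Q0_uy, Q0_yu, map_smul, Prod.smul_fst, Prod.smul_snd, map_zero,
      zero_add, add_zero, hμ, ha, real_inner_self_eq_norm_sq, smul_zero,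
      FunLike.coe_zero, FunLike.coe_smul, Pi.smul_apply, Pi.zero_apply] at hb
    have h2 : p.mul ((e (u, 0) (PP (p.mul y u))).2
      - ‖u‖ ^ 2 • ((3 : ℝ) • (e (0, y) X1).2 - μ • y)) u = 0 := by
      have h3 : p.mul ((e (u, 0) (PP (p.mul y u))).2
        - ‖u‖ ^ 2 • ((3 : ℝ) • (e (0, y) X1).2 - μ • y)) u
        = p.mul (e (u, 0) (PP (p.mul y u))).2 u
          - ‖u‖ ^ 2 • ((3 : ℝ) • p.mul (e (0, y) X1).2 u - μ • p.mul y u) := by
        simp only [map_sub, map_smul]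
        rfl
      rw [h3]
      linear_combination (norm := module) (-2 : ℝ) • hb
    exact sub_eq_zero.1 (mul_inj p hu h2)
  -- (d)
  obtain ⟨u, hu⟩ : ∃ u : E d, ‖u‖ = 1 :=
    ⟨EuclideanSpace.single ⟨0, by omega⟩ 1, by simp⟩
  have hd2 : ∀ y v : E d, (3 / 2 : ℝ) * ⟪y, (e (0, v) X1).2⟫_ℝ + (1 / 2) * ⟪v, (e (0, y) X1).2⟫_ℝ
      = μ * ⟪v, y⟫_ℝ := by
    intro y v
    have h := he (0, y) (u, 0) (u, 0) (0, v)
    have hb := congrArg (fun X : N d => X.2.1) h
    simp only [Prod.snd_add, Prod.fst_add, Q0_b, inner_zero_left, add_zero, zero_add] at hb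
    simp only [Q0_u, Q0_uy, Q0_yu, map_smul, Prod.smul_snd, inner_smul_right, hc, hu,
      real_inner_self_eq_norm_sq, inner_sub_right] at hb
    have h3 : ⟪y, v⟫_ℝ = ⟪v, y⟫_ℝ := real_inner_comm _ _
    rw [h3] at hb
    linarith
  have hβ : ∀ y : E d, (e (0, y) X1).2 = (μ / 2) • y := by
    intro y
    refine ext_inner_left ℝ fun v => ?_
    have h1 := hd2 y v
    have h2 := hd2 v y
    have h3 : ⟪y, v⟫_ℝ = ⟪v, y⟫_ℝ := real_inner_comm _ _
    rw [inner_smul_right]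
    rw [h3] at h2
    linarith
  refine ⟨μ / 2, fun u => ?_, hβ⟩
  refine Prod.ext ?_ ?_
  · rw [hμ]
    simp only [Prod.smul_mk]
    congr 1; ring
  · rw [ha]; simp

/-! ## Step 2 -/

/-- `X_s = (1, ‖s‖², s)` -/
def Xs (s : E d) : N d := (1, ‖s‖ ^ 2, s)

theorem As_X1 (s : E d) : As s X1 = Xs s := by
  simp [As, X1, Xs]

theorem step2 (hd : 1 ≤ d) (p : NProd d) (e : T d →L[ℝ] N d →L[ℝ] T d) (he : Sym4 (Q0 p) e)
    (s : E d) :
    ∃ γ : ℝ, (∀ u : E d, e (Bs p s (u, 0)) (Xs s) = (2 * γ) • Bs p s (u, 0)) ∧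
      (∀ η : T d, ((Bs p s).symm (e η (Xs s))).2 = γ • ((Bs p s).symm η).2) ∧
      LinearMap.trace ℝ (T d) ((e.flip (Xs s) : T d →L[ℝ] T d) : T d →ₗ[ℝ] T d)
        = 3 * d * γ := by
  obtain ⟨γ, h1, h2⟩ := step1 hd p (es p s e) (sym4_es p s e he)
  have h12 : ∀ w : T d, (es p s e w X1).2 = γ • w.2 := by
    intro w
    have hw2 : w = (w.1, 0) + (0, w.2) := by simp
    conv_lhs => rw [hw2, map_add, add_apply, h1]
    simp [h2]
  refine ⟨γ, fun u => ?_, fun η => ?_, ?_⟩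
  · have := h1 u
    rw [es_apply, As_X1] at this
    rw [← map_smul, ← this, LinearEquiv.apply_symm_apply]
  · have h3 : es p s e ((Bs p s).symm η) X1 = (Bs p s).symm (e η (Xs s)) := by
      rw [es_apply, As_X1, LinearEquiv.apply_symm_apply]
    rw [← h3]
    exact h12 _
  · have ht : LinearMap.trace ℝ (T d) ((e.flip (Xs s) : T d →L[ℝ] T d) : T d →ₗ[ℝ] T d)
        = LinearMap.trace ℝ (T d) (((es p s e).flip X1 : T d →L[ℝ] T d) : T d →ₗ[ℝ] T d) := by
      rw [← LinearMap.trace_conj' _ (Bs p s).symm]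
      congr 1
      refine LinearMap.ext fun w => ?_
      rw [LinearEquiv.conj_apply_apply, LinearEquiv.symm_symm]
      change (Bs p s).symm (e (Bs p s w) (Xs s)) = es p s e w X1
      rw [es_apply, As_X1]
    rw [ht]
    let κ : E d →ₗ[ℝ] E d := (LinearMap.fst ℝ (E d) (E d)).comp
      ((((es p s e).flip X1 : T d →L[ℝ] T d) : T d →ₗ[ℝ] T d).comp (LinearMap.inr ℝ (E d) (E d)))
    have hdec : (((es p s e).flip X1 : T d →L[ℝ] T d) : T d →ₗ[ℝ] T d)
        = LinearMap.prodMap ((2 * γ) • LinearMap.id) (γ • LinearMap.id)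
          + (LinearMap.inl ℝ (E d) (E d)).comp (κ.comp (LinearMap.snd ℝ (E d) (E d))) := by
      refine LinearMap.ext fun w => ?_
      change es p s e w X1 = ((2 * γ) • w.1, γ • w.2) + ((es p s e (0, w.2) X1).1, 0)
      refine Prod.ext ?_ ?_
      · have hw2 : w = (w.1, 0) + (0, w.2) := by simp
        conv_lhs => rw [hw2, map_add, add_apply, h1]
        simp
      · rw [h12]; simp
    rw [hdec, map_add, LinearMap.trace_prodMap', LinearMap.trace_comp_comm', LinearMap.comp_assoc,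
      LinearMap.snd_comp_inl, LinearMap.comp_zero, map_zero, map_smul, map_smul,
      LinearMap.trace_id, finrank_euclideanSpace_fin]
    simp only [smul_eq_mul]
    ring

/-- the trace functional -/
def psi (e : T d →L[ℝ] N d →L[ℝ] T d) : N d →L[ℝ] ℝ :=
  LinearMap.toContinuousLinearMap
    ((1 / (3 * d) : ℝ) • ((LinearMap.trace ℝ (T d)).comp
      ((ContinuousLinearMap.coeLM ℝ).comp (e.flip : N d →ₗ[ℝ] (T d →L[ℝ] T d)))))

theorem psi_apply (e : T d →L[ℝ] N d →L[ℝ] T d) (X : N d) :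
    psi e X = (1 / (3 * d) : ℝ) *
      LinearMap.trace ℝ (T d) ((e.flip X : T d →L[ℝ] T d) : T d →ₗ[ℝ] T d) := rfl

theorem Q0_Bs_u (p : NProd d) (s u : E d) :
    Q0 p (Bs p s (u, 0)) (Bs p s (u, 0)) = ‖u‖ ^ 2 • Xs s := by
  rw [Q0_Bs, Q0_u, As_smul, As_X1, real_inner_self_eq_norm_sq]

theorem exists_Bs (p : NProd d) (ξ : T d) (h : ξ.1 ≠ 0) :
    ∃ s : E d, ξ = Bs p s (ξ.1, 0) := by
  refine ⟨(‖ξ.1‖ ^ 2)⁻¹ • p.mul ξ.2 ξ.1, ?_⟩
  have h2 : ‖ξ.1‖ ^ 2 ≠ 0 := by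
    have := norm_ne_zero_iff.2 h
    positivity
  refine Prod.ext rfl ?_
  rw [Bs_apply, adj_smul_left, adj_mul, smul_smul, inv_mul_cancel₀ h2, one_smul, add_zero]

theorem ext_of_fst (hd : 1 ≤ d) {F : Type*} [TopologicalSpace F] [T2Space F] {f g : T d → F}
    (hf : Continuous f) (hg : Continuous g) (h : ∀ ξ : T d, ξ.1 ≠ 0 → f ξ = g ξ) : f = g := by
  have : Nonempty (Fin d) := ⟨⟨0, by omega⟩⟩
  have h1 : Dense ({0}ᶜ : Set (E d)) := dense_compl_singleton 0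
  have h2 : Dense (Prod.fst ⁻¹' ({0}ᶜ : Set (E d)) : Set (T d)) := h1.preimage isOpenMap_fst
  exact Continuous.ext_on h2 hf hg (fun ξ hξ => h ξ hξ)

theorem psi_full (hd : 1 ≤ d) (p : NProd d) (e : T d →L[ℝ] N d →L[ℝ] T d)
    (he : Sym4 (Q0 p) e) :
    ∃ ψ : N d →L[ℝ] ℝ, (∀ ξ, e ξ (Q0 p ξ ξ) = (2 * ψ (Q0 p ξ ξ)) • ξ) ∧
      ∀ (s : E d) (η : T d),
        ((Bs p s).symm (e η (Xs s))).2 = ψ (Xs s) • ((Bs p s).symm η).2 := by
  have hd0 : (d : ℝ) ≠ 0 := by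
    have : (1 : ℝ) ≤ d := by exact_mod_cast hd
    positivity
  have key : ∀ s : E d, (∀ u : E d, e (Bs p s (u, 0)) (Xs s) = (2 * psi e (Xs s)) • Bs p s (u, 0)) ∧
      (∀ η : T d, ((Bs p s).symm (e η (Xs s))).2 = psi e (Xs s) • ((Bs p s).symm η).2) := by
    intro s
    obtain ⟨γ, h1, h2, h3⟩ := step2 hd p e he s
    have h4 : psi e (Xs s) = γ := by
      rw [psi_apply, h3]; field_simp
    rw [h4]
    exact ⟨h1, h2⟩
  refine ⟨psi e, ?_, fun s => (key s).2⟩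
  have h5 : (fun ξ : T d => e ξ (Q0 p ξ ξ)) = (fun ξ : T d => (2 * psi e (Q0 p ξ ξ)) • ξ) := by
    refine ext_of_fst hd ?_ ?_ ?_
    · fun_prop
    · fun_prop
    · intro ξ hξ
      obtain ⟨s, hs⟩ := exists_Bs p ξ hξ
      have h6 := (key s).1 ξ.1
      have h7 := Q0_Bs_u p s ξ.1
      rw [← hs] at h6 h7
      rw [h7, map_smul, map_smul, h6, smul_smul, smul_eq_mul]
      congr 1
      ring
  exact fun ξ => congrFun h5 ξ

/-! ## the null vectors span -/

theorem eq_zero_of_Xs (hd : 1 ≤ d) {F : Type*} [AddCommGroup F] [Module ℝ F] [TopologicalSpace F]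
    (f : N d →L[ℝ] F) (h : ∀ s : E d, f (Xs s) = 0) : f = 0 := by
  have h0 : f (1, 0, 0) = 0 := by
    have := h 0
    simpa [Xs] using this
  obtain ⟨u, hu⟩ : ∃ u : E d, ‖u‖ = 1 :=
    ⟨EuclideanSpace.single ⟨0, by omega⟩ 1, by simp⟩
  have h1 : f (0, 1, 0) = 0 := by
    have h2 := h u
    have h3 := h (-u)
    have h4 : (0, 1, 0) = (1/2 : ℝ) • (Xs u + Xs (-u)) - ((1, 0, 0) : N d) := by
      simp [Xs, hu]
      norm_num
    rw [h4, map_sub, map_smul, map_add, h2, h3, h0]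
    simp
  have h2 : ∀ q : E d, f (0, 0, q) = 0 := by
    intro q
    have h3 : ((0, 0, q) : N d) = Xs q - (1, 0, 0) - ‖q‖ ^ 2 • (0, 1, 0) := by
      simp [Xs]
    rw [h3, map_sub, map_sub, map_smul, h, h0, h1]
    simp
  refine ContinuousLinearMap.ext fun X => ?_
  have h3 : X = X.1 • (1, 0, 0) + X.2.1 • (0, 1, 0) + (0, 0, X.2.2) := by
    refine Prod.ext ?_ (Prod.ext ?_ ?_) <;> simp
  rw [h3, map_add, map_add, map_smul, map_smul, h0, h1, h2]
  simp

theorem perp (hd : 2 ≤ d) (x : E d) : ∃ y : E d, y ≠ 0 ∧ ⟪x, y⟫_ℝ = 0 := by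
  set i0 : Fin d := ⟨0, by omega⟩
  set i1 : Fin d := ⟨1, by omega⟩
  have h01 : i0 ≠ i1 := by simp [i0, i1]
  by_cases hx : x i0 = 0
  · exact ⟨EuclideanSpace.single i0 1, by simp, by simp [EuclideanSpace.inner_single_right, hx]⟩
  · refine ⟨x i1 • EuclideanSpace.single i0 1 - x i0 • EuclideanSpace.single i1 1, ?_, ?_⟩
    · intro h
      have := congrFun (congrArg (fun z : E d => (z : Fin d → ℝ)) h) i1
      simp [h01.symm, hx] at this
    · rw [inner_sub_right, inner_smul_right, inner_smul_right, EuclideanSpace.inner_single_right,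
        EuclideanSpace.inner_single_right]
      simp
      ring

end BG

/-! ## The three theorems -/

theorem sym4_psi (hd : 2 ≤ d) (p : NProd d) (e : T d →L[ℝ] N d →L[ℝ] T d)
    (he : Sym4 (Q0 p) e) :
    ∃ ψ : N d →L[ℝ] ℝ, ∀ ξ, e ξ (Q0 p ξ ξ) = (2 * ψ (Q0 p ξ ξ)) • ξ := by
  obtain ⟨ψ, h, -⟩ := BG.psi_full (by omega) p e he
  exact ⟨ψ, h⟩

theorem BG.Q0_symm (p : NProd d) (ξ η : T d) : Q0 p ξ η = Q0 p η ξ := by
  rw [Q0_apply, Q0_apply, real_inner_comm, real_inner_comm ξ.2, add_comm]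

theorem sym4_zero (hd : 2 ≤ d) (p : NProd d) (e : T d →L[ℝ] N d →L[ℝ] T d)
    (he : Sym4 (Q0 p) e) (h : ∀ ξ, e ξ (Q0 p ξ ξ) = 0) : e = 0 := by
  have h1 : ∀ ξ η, e η (Q0 p ξ ξ) = -((2 : ℝ) • e ξ (Q0 p ξ η)) := by
    intro ξ η
    have ha := h (ξ + η)
    have hb := h (ξ - η)
    have hc := h η
    have hd := h ξ
    simp only [map_add, map_sub, add_apply, sub_apply, BG.Q0_symm p η ξ] at ha hb hc hd
    rw [hc, hd] at ha hb
    linear_combination (norm := module) (1/2 : ℝ) • ha - (1/2 : ℝ) • hb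
  have h2 : ∀ θ ξ, Q0 p ξ (e θ (Q0 p ξ ξ)) = 0 := by
    intro θ ξ
    have ha := he θ ξ ξ ξ
    rw [h ξ, map_zero, BG.Q0_symm p θ ξ] at ha
    have hb := h1 ξ θ
    have hc : Q0 p ξ (e θ (Q0 p ξ ξ)) = -((2 : ℝ) • Q0 p ξ (e ξ (Q0 p ξ θ))) := by
      rw [hb, map_neg, map_smul]
    linear_combination (norm := module) (1/4 : ℝ) • ha + (1/4 : ℝ) • hc
  refine ContinuousLinearMap.ext fun θ => ?_
  refine BG.eq_zero_of_Xs (by omega) _ fun s => ?_
  have h3 : ∀ u : E d, Q0 p (u, 0) ((BG.Bs p s).symm (e θ (BG.Xs s))) = 0 := by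
    intro u
    by_cases hu : u = 0
    · subst hu
      have : ((0 : E d), (0 : E d)) = (0 : T d) := rfl
      rw [this, map_zero]; rfl
    have hu2 : ‖u‖ ^ 2 ≠ 0 := by positivity
    apply BG.As_inj s
    rw [BG.Q0_Bs_symm]
    have h4 := h2 θ (BG.Bs p s (u, 0))
    rw [BG.Q0_Bs_u, map_smul, map_smul] at h4
    rw [(smul_eq_zero.1 h4).resolve_left hu2]
    have : BG.As s (0 : N d) = 0 := by
      have := BG.As_smul s (0 : ℝ) (0 : N d)
      simpa using this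
    rw [this]
  set w := (BG.Bs p s).symm (e θ (BG.Xs s)) with hw
  have hw0 : w = 0 := by
    refine Prod.ext ?_ ?_
    · have h4 := congrArg (fun X : N d => X.1) (h3 w.1)
      simp only [BG.Q0_a] at h4
      exact inner_self_eq_zero.1 h4
    · obtain ⟨u, hu⟩ : ∃ u : E d, ‖u‖ = 1 :=
        ⟨EuclideanSpace.single ⟨0, by omega⟩ 1, by simp⟩
      have h4 := congrArg (fun X : N d => X.2.2) (h3 u)
      simp only [BG.Q0_c, map_zero, zero_apply, zero_add] at h4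
      have h5 := (smul_eq_zero.1 h4).resolve_left (by norm_num)
      have hu0 : u ≠ 0 := by
        intro h0
        rw [h0, norm_zero] at hu
        exact zero_ne_one hu
      exact BG.mul_inj p hu0 h5
  have h6 : e θ (BG.Xs s) = BG.Bs p s w := by rw [hw, LinearEquiv.apply_symm_apply]
  rw [h6, hw0, map_zero]

theorem sym4_prolong (hd : 2 ≤ d) (p : NProd d) (e : T d →L[ℝ] T d →L[ℝ] N d →L[ℝ] T d)
    (he : ∀ ζ, Sym4 (Q0 p) (e ζ)) (hs : ∀ ζ η X, e ζ η X = e η ζ X) : e = 0 := by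
  choose ψ hψ1 hψ2 using fun ζ => BG.psi_full (by omega : 1 ≤ d) p (e ζ) (he ζ)
  have h1 : ∀ ζ s, ψ ζ (BG.Xs s) = 0 := by
    intro ζ s
    obtain ⟨y, hy, hyx⟩ := BG.perp hd ((BG.Bs p s).symm ζ).2
    have h2 := hψ2 ζ s (BG.Bs p s (0, y))
    have h3 := hψ2 (BG.Bs p s (0, y)) s ζ
    rw [hs] at h2
    rw [h2, LinearEquiv.symm_apply_apply] at h3
    have h4 := congrArg (fun z => ⟪z, y⟫_ℝ) h3
    simp only [inner_smul_left, hyx, real_inner_self_eq_norm_sq] at h4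
    have h5 : ‖y‖ ^ 2 ≠ 0 := by positivity
    simpa [h5] using h4
  refine ContinuousLinearMap.ext fun ζ => ?_
  have h2 : ψ ζ = 0 := BG.eq_zero_of_Xs (by omega) _ (h1 ζ)
  refine sym4_zero hd p (e ζ) (he ζ) fun ξ => ?_
  rw [hψ1, h2]
  simp

end Pool.Agent.KP
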